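import Mathlib
import Pool.Agent.V11310.CL.Open
import Pool.Agent.Y939.NC.Std
import Pool.Agent.TH167.SH.Fam
import Pool.Agent.TH167.SH.Conv

set_option autoImplicit false

/-!
# The closed cone of curves is spanned by the conjectural cone and by classes all of whose multiples
are outside of the closure of the known classes

Let `X` be the blow-up of the complex projective plane at `n ≥ 4` very general points. The closed cone
of curves of `X` is contained in the closed convex cone spanned by the positive cone, the classes of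
the `(-1)`-curves, and the classes `d H - ∑ w i E i`, `w i ≥ 0`, with `d ^ 2 < ∑ w i ^ 2`,
`3 d < ∑ w i` such that NO multiple `(t d; t w)`, `t ≥ 1`, is reached or carried by finitely many
reflections to a standard class which is reached.

`Reached N0 d w` (`Pool.Agent.V11310.CL.Reached`): the multiset of the multiplicities `w` belongs, in
degree `d`, to the smallest class of multisets of multiplicities with one of the two signs (no curves,
independent conditions) which contains the comparable, the large and the good classes (`Base`) and is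
closed under collisions (a point of multiplicity `μ` may be replaced by points `M'` if `M'` is in the
class in degree `μ - 1`), quadratic transformations, doubling (four points of multiplicity `m` for one
point of the multiplicities `2 m` and `2 m + 1`), adding or removing points and changing the degree.
-/

namespace Pool.Agent.Results.MP_309968_ag.CollisionClosureCone

open MvPolynomial Pool.Agent.TH167 Pool.Agent.TH167.SHDefs Pool.Agent.Y939.NC
open Pool.Agent.Y536.SH (Standard)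
open Pool.Agent.V11310.CL (Base Reached Covered covered_exp reached_of_base)

/-- The classes of the curves: those of the strict transforms of the irreducible plane curves, of
degree `d` with the exact multiplicities `w i`, and those of the exceptional curves. The vector
`(d, w)` stands for the class `d H - ∑ w i E i`. -/
def curveClasses {n : ℕ} (P : Fin n → Fin 2 → ℂ) : Set (ℝ × (Fin n → ℝ)) :=
  {v | ∃ (C : MvPolynomial (Fin 3) ℂ) (d : ℕ) (w : Fin n → ℕ), Curve P C d w ∧
    v = ((d : ℝ), fun i => (w i : ℝ))} ∪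
  {v | ∃ i : Fin n, v = ((0 : ℝ), (Pi.single i (-1 : ℝ) : Fin n → ℝ))}

/-- The classes of the `(-1)`-curves. -/
def minusOneClasses {n : ℕ} (P : Fin n → Fin 2 → ℂ) : Set (ℝ × (Fin n → ℝ)) :=
  {v | ∃ (C : MvPolynomial (Fin 3) ℂ) (d : ℕ) (w : Fin n → ℕ), MinusOne P C d w ∧
    v = ((d : ℝ), fun i => (w i : ℝ))} ∪
  {v | ∃ i : Fin n, v = ((0 : ℝ), (Pi.single i (-1 : ℝ) : Fin n → ℝ))}

/-- The positive cone. -/
def positive (n : ℕ) : Set (ℝ × (Fin n → ℝ)) := {v | 0 ≤ v.1 ∧ ∑ i, v.2 i ^ 2 ≤ v.1 ^ 2}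

/-- The classes with `D ^ 2 < 0 < K D`, no multiple of which is reached or carried to a standard
class which is reached. -/
def remaining (N0 n : ℕ) : Set (ℝ × (Fin n → ℝ)) :=
  {v | ∃ (d : ℕ) (w : Fin n → ℕ), v = ((d : ℝ), fun i => (w i : ℝ)) ∧
    d ^ 2 < ∑ i, w i ^ 2 ∧ 3 * d < ∑ i, w i ∧
    ∀ t : ℕ, 1 ≤ t → ¬ Covered N0 (t * d) (fun i => t * w i)}

/-- The closed convex cone spanned by a set. -/
def cone {n : ℕ} (S : Set (ℝ × (Fin n → ℝ))) : Set (ℝ × (Fin n → ℝ)) :=
  closure (Submodule.span {c : ℝ // 0 ≤ c} S : Set (ℝ × (Fin n → ℝ)))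

/-- The class of a multiple of an effective irreducible curve with `C ^ 2 < 0 < K C` is special. -/
theorem not_exp {s : ℕ} {P : Fin s → Fin 2 → ℂ} {d : ℕ} {w : Fin s → ℕ}
    {C : MvPolynomial (Fin 3) ℂ} (h0 : C ≠ 0) (hC : C.IsHomogeneous d)
    (hv : ∀ j, W609.CR.Van (W609.CR.aff (P j)) (w j) C) (hip : SH.ip d w d w < 0)
    (hkk : SH.kk d w < 0) {t : ℕ} (ht : 1 ≤ t) :
    ¬ Pool.Agent.H932R3.ExpDim ℂ (fun i => t * w i) P (t * d) := by
  intro h6
  rw [Pool.Agent.TH442.NF.expDim_iff] at h6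
  have h7 := SH.two_chi (t * d) (fun i => t * w i)
  have hmem : C ^ t ∈ W609.CR.VS (fun j => W609.CR.aff (P j)) (fun i => t * w i) (t * d) :=
    (SH.mem_VS _ _ _ _).2 ⟨by rw [mul_comm]; exact hC.pow t, fun j => SH.van_pow (hv j) t⟩
  have hfin := W609.CR.vs_fin (fun j => W609.CR.aff (P j)) (fun i => t * w i) (t * d)
  have hpos : 0 < Module.finrank ℂ
      ↥(W609.CR.VS (fun j => W609.CR.aff (P j)) (fun i => t * w i) (t * d)) :=
    Module.finrank_pos_iff.2 ⟨⟨C ^ t, hmem⟩, 0, fun h7 => pow_ne_zero t h0 (congrArg Subtype.val h7)⟩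
  have e1 : SH.ip (t * d) (fun i => t * w i) (t * d) (fun i => t * w i) = (t : ℤ) ^ 2 * SH.ip d w d w := by
    unfold SH.ip
    push_cast
    rw [mul_sub, Finset.mul_sum]
    congr 1
    · ring
    · exact Finset.sum_congr rfl fun i _ => by ring
  have e2 : SH.kk (t * d) (fun i => t * w i) = (t : ℤ) * SH.kk d w := by
    unfold SH.kk
    push_cast
    rw [mul_sub, Finset.mul_sum]
    congr 1
    ring
  have ht' : (1 : ℤ) ≤ t := by exact_mod_cast ht
  have h8 : SH.chi (t * d) (fun i => t * w i) ≤ 0 := by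
    rw [e1, e2] at h7
    nlinarith
  rw [max_eq_left h8] at h6
  omega

theorem result : ∃ N0 : ℕ,
    (∀ (n d : ℕ) (w : Fin n → ℕ), Base N0 d w → Reached N0 d w) ∧
    ∀ n : ℕ, 4 ≤ n →
    ∃ Z : ℕ → MvPolynomial (Fin n × Fin 2) ℂ, (∀ k, Z k ≠ 0) ∧
      ∀ P : Fin n → Fin 2 → ℂ,
        (∀ k, MvPolynomial.eval (fun ij : Fin n × Fin 2 => P ij.1 ij.2) (Z k) ≠ 0) →
        cone (curveClasses P) ⊆ cone (minusOneClasses P ∪ positive n ∪ remaining N0 n) := by
  obtain ⟨N0, hN0⟩ := reg_exp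
  refine ⟨N0, fun n d w => reached_of_base, fun s hs => ?_⟩
  obtain ⟨r, rfl⟩ : ∃ r, s = r + 4 := ⟨s - 4, by omega⟩
  obtain ⟨Z, hZ, h⟩ := SH.exists_fam (Fin (r + 4) × Fin 2)
  refine ⟨Z, hZ, fun P hP0 => ?_⟩
  have hP := (h _).1 hP0
  refine closure_mono (Submodule.span_mono ?_)
  rintro v (⟨C, d, w, hC, rfl⟩ | ⟨i, rfl⟩)
  swap
  · exact Or.inl (Or.inl (Or.inr ⟨i, rfl⟩))
  by_cases hneg : inter d w d w < 0
  swap
  · refine Or.inl (Or.inr ⟨Nat.cast_nonneg d, ?_⟩)
    have h1 : (0 : ℤ) ≤ (d : ℤ) * d - ∑ i, (w i : ℤ) * w i := not_lt.1 hneg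
    have h2 : (0 : ℝ) ≤ ((((d : ℤ) * d - ∑ i, (w i : ℤ) * w i : ℤ)) : ℝ) := by exact_mod_cast h1
    push_cast at h2
    show ∑ i, ((w i : ℝ)) ^ 2 ≤ (d : ℝ) ^ 2
    simp only [pow_two]
    linarith
  by_cases hne : MinusOne P C d w
  · exact Or.inl (Or.inl (Or.inl ⟨C, d, w, hne, rfl⟩))
  right
  obtain ⟨h1, h2, h3⟩ := SH.curve_iff.1 hC
  have hne' : ¬ (SH.ip d w d w = -1 ∧ SH.kk d w = 1) := fun h0 =>
    hne ⟨hC, by rw [SH.inter_eq, h0.1], by rw [SH.interK_eq, h0.2]⟩
  obtain ⟨M, hM⟩ : ∃ M, ∀ j, w j ≤ M := ⟨∑ j, w j, fun j =>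
    Finset.single_le_sum (fun _ _ => Nat.zero_le _) (Finset.mem_univ j)⟩
  have hw : SH.Few M d w := by
    left
    rw [Finset.filter_false_of_mem fun j _ => not_lt.2 (hM j)]
    simp
  obtain ⟨P1, d1, w1, C1, a1, a2, a3, a4, a5, a6, a7, a8⟩ :=
    Pool.Agent.Y939.NC.std_irr d P hP w hw C h1 h2 h3 hne'
  obtain ⟨c1, c2, c3⟩ := SH.quad_inv a5
  simp only at c1 c2 c3
  have hneg0 := hneg
  rw [SH.inter_eq] at hneg
  have hwd : ∀ j, w1 j ≤ d1 := fun j => SH.van_le a2.ne_zero a3 (a4 j).1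
  have hK : SH.kk d1 w1 < 0 := by
    by_contra hcon
    push Not at hcon
    have h4 : 0 ≤ SH.kk d1 w1 := hcon
    rw [SH.kk_cast] at h4
    have h5 := SH.red_ip a6 hwd (by omega)
    omega
  have hKw : 0 < interK d w := by
    rw [SH.interK_eq, ← c2]
    omega
  refine ⟨d, w, rfl, ?_, ?_, fun t ht hG => ?_⟩
  · have h4 : (d : ℤ) * d - ∑ i, (w i : ℤ) * w i < 0 := hneg0
    zify
    simp only [pow_two]
    linarith
  · have h4 : 0 < -3 * (d : ℤ) + ∑ i, (w i : ℤ) := hKw
    zify
    linarith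
  · exact not_exp h1.ne_zero h2 (fun j => (h3 j).1) hneg (by rw [← c2]; exact hK) ht
      (covered_exp hN0 (by omega) hG hP)

end Pool.Agent.Results.MP_309968_ag.CollisionClosureCone
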